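import Pool.Agent.H369.SM.Stm

/-!
# The places of a smooth curve of genus one, and Riemann-Roch for all divisors

`R ⊆ F((w))` is the ring of the functions on a smooth projective curve of genus one which are regular
outside one point (`IsSmoothCurve R 1`), `F` algebraically closed of characteristic zero.
-/

set_option autoImplicit false

namespace Pool.Agent.H369.PL

open Pool.Agent.TH549.CK Pool.Agent.H369.SM

/-- the expansion of the functions of the ring `A` with respect to a local parameter at a point -/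
structure Unif {F A : Type} [Field F] [CommRing A] [Algebra F A] (e : A →+* PowerSeries F) : Prop where
  const : ∀ c : F, e (algebraMap F A c) = PowerSeries.C c
  unif : ∃ π : A, PowerSeries.coeff 0 (e π) = 0 ∧ PowerSeries.coeff 1 (e π) ≠ 0

/-- the maximal ideal of the point -/
noncomputable def ctr {F A : Type} [Field F] [CommRing A] (e : A →+* PowerSeries F) : Ideal A :=
  RingHom.ker ((PowerSeries.constantCoeff (R := F)).comp e)

/-- **PL1** (codimension).  Here `R` is Dedekind and of finite type (`dedekind_of_smooth`), so `R/I` is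
finite dimensional (e.g. `I` contains a nonzero `f` and `P25.quot_fin` bounds the dimension of
`R/(f)` by the pole order of `f`).  Write `c = dim R/I < n`.  `dim (L_n ∩ I) ≥ n - c` is clear.
Suppose `dim (L_n ∩ I) > n - c`.  Let `𝔪` be a maximal ideal, `I_k = I 𝔪^k`; `dim R/I_k = c + k`
(`finrank_quot_mul`, `R/𝔪 = F`) and `dim (L_n ∩ I_(k+1)) ≥ dim (L_n ∩ I_k) - 1`.  For `k = n - 1 - c` the
ideal `I' = I_k` has codimension `n - 1` and `dim (L_n ∩ I') ≥ 2`.  So there is a nonzero
`f ∈ I' ∩ L_(n-1)` and some `h ∈ I' ∩ L_n` which is not a multiple of `f`.  The codimension of `(f)` is at most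
the pole order of `f`, at most `n - 1`; so `(f) = I'` and the pole order of `f` is `n - 1`.  Then `h = f k`,
`k ∈ L_1`, and `L_1 = L_0 = F` as `dim L_1 = 1` (genus one): contradiction. -/
def S_codim : Prop := ∀ (F : Type) [Field F] [IsAlgClosed F] [CharZero F]
  (R : Subalgebra F (LaurentSeries F)) (_ : IsSmoothCurve R 1) (I : Ideal R) (_ : I ≠ ⊥),
  FiniteDimensional F (R ⧸ I) ∧ ∀ n : ℕ, Module.finrank F (R ⧸ I) < n →
    Module.finrank F ↥(Lp R n ⊓ I.restrictScalars F) = n - Module.finrank F (R ⧸ I)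

/-- **PL2** (expansions exist).  `A/𝔪 = F` (Nullstellensatz).  Choose `π ∈ 𝔪`, `π ∉ 𝔪²`.  Every `f ∈ A` is
congruent to a unique `∑_{i<n} a_i π^i` modulo `𝔪^n`, `a_i ∈ F` (as `𝔪^i/𝔪^(i+1)` is one-dimensional,
generated by `π^i`), and the `a_i` do not depend on `n`; `f ↦ ∑ a_i X^i` is the ring homomorphism. -/
def S_exp : Prop := ∀ (F A : Type) [Field F] [IsAlgClosed F] [CommRing A] [IsDedekindDomain A]
  [Algebra F A] [Algebra.FiniteType F A] (𝔪 : Ideal A) (_ : 𝔪.IsMaximal) (_ : 𝔪 ≠ ⊥),
  ∃ e : A →+* PowerSeries F, Unif e ∧ ctr e = 𝔪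

/-- **PL3** (order).  Let `𝔪 = ctr e`.  If `f ∈ 𝔪^k` then `X^k ∣ e f`.  Conversely `e` induces an injection
`A/𝔪^k → F[[X]]/X^k`: both have dimension `k` (`A/𝔪 = F`, `𝔪^i/𝔪^(i+1)` one-dimensional) and it is onto
because of the uniformizer. -/
def S_ord : Prop := ∀ (F A : Type) [Field F] [CommRing A] [IsDedekindDomain A] [Algebra F A]
  (e : A →+* PowerSeries F) (_ : Unif e) (_ : ctr e ≠ ⊥) (k : ℕ) (f : A),
  (∀ l < k, PowerSeries.coeff l (e f) = 0) ↔ f ∈ (ctr e) ^ k

/-- **PL4** (the places).  `P = Option (MaximalSpectrum R)`, `o = none`, the expansion at `o` is the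
inclusion `R ⊆ F((w))` extended to the fraction field, the expansion at `some 𝔪` is the extension of the
given `e x` if `𝔪 = ctr (e x)` and of the one of `S_exp` otherwise (injective by `S_ord` as
`⋂ 𝔪^k = 0`).  Riemann-Roch: let `D = n o + ∑ d_𝔪 𝔪`, `deg D > 0`.  Choose `c ≠ 0` in `∏ 𝔪^(max d_𝔪 0)`, let
`(c) = J ∏ 𝔪^(max d_𝔪 0)`, `I = J ∏ 𝔪^(max (-d_𝔪) 0)`.  Multiplication by `c` is an isomorphism from `L(D)`
onto `I ∩ L_(n + deg c)` (an element `f` of the fraction field is in `R` if it is regular at all `𝔪`, and in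
`I` if the orders are at least those of `I`, by `S_ord` and unique factorisation).  By `S_codim` the
codimension of `(c)` is the pole order `deg c` (as `L_N ∩ (c) = c L_(N - deg c)`), so the codimension of `I`
is `deg c - ∑ d_𝔪` and `dim L(D) = n + deg c - (deg c - ∑ d_𝔪) = deg D`. -/
def S_PL : Prop := ∀ (F : Type) [Field F] [IsAlgClosed F] [CharZero F]
  (R : Subalgebra F (LaurentSeries F)) (_ : IsSmoothCurve R 1) (ι : Type) [Finite ι]
  (e : ι → (R →+* PowerSeries F)) (_ : ∀ x, Unif (e x)) (_ : ∀ x, ctr (e x) ≠ ⊥)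
  (_ : Function.Injective fun x => ctr (e x)),
  ∃ (P : Type) (C : Crv F (FractionRing R) P) (o : P) (nd : ι → P), Function.Injective nd ∧
    (∀ x, nd x ≠ o) ∧ C.RR 1 ∧
    (∀ f : R, C.E o (algebraMap R (FractionRing R) f) = (f : LaurentSeries F)) ∧
    (∀ x (f : R), C.E (nd x) (algebraMap R (FractionRing R) f) =
      ((e x f : PowerSeries F) : LaurentSeries F)) ∧
    ∀ f : FractionRing R, (∀ x, x ≠ o → ∀ k < 0, (C.E x f).coeff k = 0) →
      ∃ r : R, algebraMap R (FractionRing R) r = f

end Pool.Agent.H369.PL
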